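import Pool.Agent.helper59.GF.Spec

set_option autoImplicit false

/-! # MP_06d6be_co, row gf:POO: old tuples and plates -/

open Filter Topology

namespace Pool.Agent.GF

theorem POO : POO_stmt := by
  intro p m V ι τ _ _ _ s s' x a b c w I hsep
  obtain ⟨f, hf⟩ := hsep
  have key : ∀ T : Fin (p + 2) → τ × Fin (m + 1), ∀ᶠ η in 𝓝[>] (0 : ℝ),
      0 < ∑ r, mu p (s ∘ I) r *
        f (x (T r).1 (I r), a (T r).1 + x (T r).1 (I r) • b (T r).1 + c (T r).1 (Yl p (s (I r))))
        + η * ∑ r, mu p (s ∘ I) r * (x (T r).1 (I r) * (((T r).2 : ℕ) : ℝ) * f (0, w)) := by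
    intro T
    have h0 := hf (fun r => (T r).1)
    have hc : Tendsto (fun η : ℝ => ∑ r, mu p (s ∘ I) r *
        f (x (T r).1 (I r), a (T r).1 + x (T r).1 (I r) • b (T r).1 + c (T r).1 (Yl p (s (I r))))
        + η * ∑ r, mu p (s ∘ I) r * (x (T r).1 (I r) * (((T r).2 : ℕ) : ℝ) * f (0, w)))
        (𝓝 0) (𝓝 (∑ r, mu p (s ∘ I) r *
        f (x (T r).1 (I r), a (T r).1 + x (T r).1 (I r) • b (T r).1 + c (T r).1 (Yl p (s (I r))))
        + 0 * ∑ r, mu p (s ∘ I) r * (x (T r).1 (I r) * (((T r).2 : ℕ) : ℝ) * f (0, w)))) :=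
      tendsto_const_nhds.add (tendsto_id.mul_const _)
    rw [zero_mul, add_zero] at hc
    exact (hc.eventually (lt_mem_nhds h0)).filter_mono nhdsWithin_le_nhds
  filter_upwards [eventually_all.2 key] with η hη
  intro C
  refine ⟨f, fun T => ?_⟩
  have h1 := hη T
  have h2 : ∑ r, mu p (sN s s' ∘ fun r => Sum.inl (I r)) r *
      f (xP x C (T r) (Sum.inl (I r)), a (T r).1 + xP x C (T r) (Sum.inl (I r)) • bP b w η (T r)
        + c (T r).1 (Yl p (sN s s' (Sum.inl (I r)))))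
      = ∑ r, mu p (s ∘ I) r *
        f (x (T r).1 (I r), a (T r).1 + x (T r).1 (I r) • b (T r).1 + c (T r).1 (Yl p (s (I r))))
        + η * ∑ r, mu p (s ∘ I) r * (x (T r).1 (I r) * (((T r).2 : ℕ) : ℝ) * f (0, w)) := by
    rw [Finset.mul_sum, ← Finset.sum_add_distrib]
    refine Finset.sum_congr rfl fun r _ => ?_
    have e1 : mu p (sN s s' ∘ fun r => Sum.inl (I r)) r = mu p (s ∘ I) r := rfl
    have e2 : xP x C (T r) (Sum.inl (I r)) = x (T r).1 (I r) := rfl
    have e3 : sN s s' (Sum.inl (I r)) = s (I r) := rfl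
    rw [e1, e2, e3]
    have e4 : ((x (T r).1 (I r), a (T r).1 + x (T r).1 (I r) • bP b w η (T r)
        + c (T r).1 (Yl p (s (I r)))) : ℝ × V)
        = (x (T r).1 (I r), a (T r).1 + x (T r).1 (I r) • b (T r).1 + c (T r).1 (Yl p (s (I r))))
          + (x (T r).1 (I r) * (η * (((T r).2 : ℕ) : ℝ))) • ((0, w) : ℝ × V) := by
      ext1
      · simp
      · simp only [bP, Prod.snd_add, Prod.smul_snd]
        rw [smul_add, smul_smul]
        abel
    rw [e4, map_add, map_smul, smul_eq_mul]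
    ring
  rw [h2]
  exact h1

end Pool.Agent.GF
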