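import Pool.Agent.helper59.GF.Spec

set_option autoImplicit false

/-! # MP_06d6be_co, row gf:BMX: mixed tuples -/

open Filter

namespace Pool.Agent.GF

theorem BMX : BMX_stmt := by
  intro p V ι ι' τ τ' _ _ _ _ s s' x ξ a b c sl e B w η κ I hne
  set Φ : ℝ := ∑ r, (if (I r).isRight = true then
    mu p (sN s s' ∘ I) r * (1 + ∑ q, κ q * Yl p (sN s s' (I r)) q) else 0) with hΦ
  let rem : τ × τ' → Fin (p + 2) → ℝ := fun t r =>
    Sum.elim (fun i => x t.1 i) (fun j => ξ t.2 j) (I r)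
  have hx : ∀ (L : ℝ) (t : τ × τ') (r : Fin (p + 2)),
      mu p (sN s s' ∘ I) r * xN p s' x ξ κ L t (I r)
        = L * (if (I r).isRight = true then
            mu p (sN s s' ∘ I) r * (1 + ∑ q, κ q * Yl p (sN s s' (I r)) q) else 0)
          + mu p (sN s s' ∘ I) r * rem t r := by
    intro L t r
    simp only [rem, xN, sN]
    rcases I r with i | j
    · simp
    · simp only [Sum.elim_inr, Sum.isRight_inr, if_true]
      ring
  obtain ⟨K, hK⟩ := Finite.exists_le (fun t : Fin (p + 2) → τ × τ' =>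
    |∑ r, mu p (sN s s' ∘ I) r * rem (t r) r|)
  have hΦpos : 0 < |Φ| := abs_pos.2 hne
  filter_upwards [eventually_gt_atTop (K / |Φ|)] with L hL
  refine ⟨Φ • LinearMap.fst ℝ ℝ (V × ℝ), fun t => ?_⟩
  have h1 : ∑ r, mu p (sN s s' ∘ I) r *
      (Φ • LinearMap.fst ℝ ℝ (V × ℝ)) (xN p s' x ξ κ L (t r) (I r),
        aN a sl e L (t r) + xN p s' x ξ κ L (t r) (I r) • bN b sl w η (t r) +
          cN c B sl κ L (t r) (Yl p (sN s s' (I r))))
      = Φ * (L * Φ + ∑ r, mu p (sN s s' ∘ I) r * rem (t r) r) := by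
    rw [hΦ, Finset.mul_sum (Finset.univ) _ L, ← Finset.sum_add_distrib, Finset.mul_sum]
    refine Finset.sum_congr rfl fun r _ => ?_
    rw [← hx L (t r) r]
    simp only [LinearMap.smul_apply, LinearMap.fst_apply, smul_eq_mul]
    ring
  rw [h1]
  have h2 := hK t
  set R : ℝ := ∑ r, mu p (sN s s' ∘ I) r * rem (t r) r with hR
  have h3 : K < L * |Φ| := by rwa [div_lt_iff₀ hΦpos] at hL
  have h4 : Φ * (L * Φ) = L * |Φ| * |Φ| := by
    rw [mul_assoc, abs_mul_abs_self]; ring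
  have h5 : -(|Φ| * |R|) ≤ Φ * R := by
    rw [← abs_mul]; exact neg_abs_le _
  have h6 : |Φ| * |R| < L * |Φ| * |Φ| := by
    have : |R| < L * |Φ| := lt_of_le_of_lt h2 h3
    calc |Φ| * |R| < |Φ| * (L * |Φ|) := mul_lt_mul_of_pos_left this hΦpos
      _ = L * |Φ| * |Φ| := by ring
  rw [mul_add, h4]
  linarith

end Pool.Agent.GF
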